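import Pool.Agent.Helper86.QA.St2

/-!
# Project QD part A (MP_d112a4_gt), module CPA: cocompactness on `A`
-/

set_option autoImplicit false

open MeasureTheory Matrix Set Topology
open scoped ENNReal ComplexConjugate

namespace Pool.Agent.Helper75.QA

open Pool.Agent.Helper86.QA
open Pool.Agent.Helper35.PM (hs)

/-- the action near the boundary plane -/
private theorem ga_lim (g : SL) (ξ : ℂ) (h : g 1 0 * ξ + g 1 1 ≠ 0) :
    Filter.Tendsto (fun n : ℕ => ga g (ξ, 1 / ((n : ℝ) + 1))) Filter.atTop (nhds (mb g ξ, 0)) := by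
  have hden : ((den g (ξ, 0) : ℝ) : ℂ) ≠ 0 := by
    have : 0 < den g (ξ, 0) := by
      unfold den
      simp only
      have := norm_pos_iff.2 h
      positivity
    exact_mod_cast this.ne'
  have hden' : den g (ξ, 0) ≠ 0 := by exact_mod_cast hden
  have e : ga g (ξ, 0) = (mb g ξ, 0) := by
    unfold ga mb
    apply Prod.ext
    · simp only [Complex.ofReal_zero, ne_eq, OfNat.ofNat_ne_zero, not_false_eq_true, zero_pow,
        mul_zero, add_zero]
      rw [div_eq_div_iff hden h]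
      unfold den
      simp only [ne_eq, OfNat.ofNat_ne_zero, not_false_eq_true, zero_pow, mul_zero, add_zero]
      rw [mul_assoc, Complex.conj_mul']
      push_cast
      rfl
    · simp
  have hcd : Continuous (fun t : ℝ => den g (ξ, t)) := by
    unfold den; fun_prop
  have hc : ContinuousAt (fun t : ℝ => ga g (ξ, t)) 0 := by
    unfold ga
    apply ContinuousAt.prodMk
    · apply ContinuousAt.div
      · fun_prop
      · exact (Complex.continuous_ofReal.comp hcd).continuousAt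
      · exact hden
    · exact continuousAt_id.div hcd.continuousAt hden'
  have h1 : Filter.Tendsto (fun n : ℕ => 1 / ((n : ℝ) + 1)) Filter.atTop (nhds 0) :=
    tendsto_one_div_add_atTop_nhds_zero_nat
  have h2 := hc.tendsto.comp h1
  rw [e] at h2
  exact h2

private theorem small_t {C ε : ℝ} (hC : 0 < C) (hε : 0 < ε) :
    ∃ t₀ > 0, ∀ t : ℝ, 0 < t → t < t₀ → C * t ^ 2 < ε := by
  refine ⟨min 1 (ε / C), by positivity, ?_⟩
  intro t ht ht0
  have h1 : t < 1 := ht0.trans_le (min_le_left _ _)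
  have h2 : t < ε / C := ht0.trans_le (min_le_right _ _)
  rw [lt_div_iff₀ hC] at h2
  nlinarith

theorem hCPA (hACT : StACT) (hCHV : StCHV) (hHME : StHME) (hAWB : StAWB) (hACU : StACU)
    (hPD2 : StPD2) : StCPA := by
  intro Γ _ ρ A B hKD
  obtain ⟨K, KA, KB, τ, hK, hKup, hKA, hKAA, hKB, hKBB, hτ, hcpt⟩ := hKD.cpt
  obtain ⟨-, hactu, -, -, hinv, -, hKD'⟩ := hACU Γ ρ A B hKD
  obtain ⟨-, hm2, hm3, -, -, hm6, hm7, -⟩ := hHME
  obtain ⟨-, hcA, hfA, -⟩ := hAWB Γ ρ A B hKD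
  obtain ⟨-, hcB, hfB, -⟩ := hAWB Γ ρ B A hKD'
  have mA := hKD.opA.measurableSet
  have mB := hKD.opB.measurableSet
  have hsum : ∀ x ∈ up, hv A x + hv B x = 1 := fun x hx => hm2 A B x mA mB hKD.dis hKD.nul hx
  -- the constant
  obtain ⟨CA, hCA⟩ := hKA.exists_bound_of_continuousOn (hcA.mono hKAA)
  obtain ⟨CB, hCB⟩ := hKB.exists_bound_of_continuousOn (hcB.mono hKBB)
  set C : ℝ := max (max CA CB) 1 / Real.pi with hC
  have hCpos : 0 < C := by positivity
  have hbB : ∀ x ∈ up, x.1 ∈ KA → hv B x ≤ C * x.2 ^ 2 := by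
    intro x hx hxA
    have h1 := hm7 B x mB hx (hfA _ (hKAA hxA)).1
    have h2 := hCA _ hxA
    rw [Real.norm_eq_abs, abs_of_nonneg ENNReal.toReal_nonneg] at h2
    have h3 : (aw B x.1).toReal / Real.pi ≤ C :=
      div_le_div_of_nonneg_right (h2.trans ((le_max_left _ _).trans (le_max_left _ _)))
        Real.pi_pos.le
    calc _ ≤ x.2 ^ 2 * ((aw B x.1).toReal / Real.pi) := h1
      _ ≤ x.2 ^ 2 * C := mul_le_mul_of_nonneg_left h3 (sq_nonneg _)
      _ = _ := mul_comm _ _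
  have hbA : ∀ x ∈ up, x.1 ∈ KB → hv A x ≤ C * x.2 ^ 2 := by
    intro x hx hxB
    have h1 := hm7 A x mA hx (hfB _ (hKBB hxB)).1
    have h2 := hCB _ hxB
    rw [Real.norm_eq_abs, abs_of_nonneg ENNReal.toReal_nonneg] at h2
    have h3 : (aw A x.1).toReal / Real.pi ≤ C :=
      div_le_div_of_nonneg_right (h2.trans ((le_max_right _ _).trans (le_max_left _ _)))
        Real.pi_pos.le
    calc _ ≤ x.2 ^ 2 * ((aw A x.1).toReal / Real.pi) := h1
      _ ≤ x.2 ^ 2 * C := mul_le_mul_of_nonneg_left h3 (sq_nonneg _)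
      _ = _ := mul_comm _ _
  have hcomp : ∀ (L : Set ℂ) (a : ℝ), IsCompact L → 0 < a →
      IsCompact (L ×ˢ Icc a τ : Set Pt) ∧ (L ×ˢ Icc a τ : Set Pt) ⊆ up := by
    intro L a hL ha
    refine ⟨hL.prod isCompact_Icc, ?_⟩
    intro x hx
    exact ha.trans_le hx.2.1
  refine ⟨KA, hKA, hKAA, ?_, ?_, ?_⟩
  · intro ξ hξ
    by_contra hno
    push Not at hno
    have hs1 := (hPD2 Γ ρ A B hKD {ξ} (KA ∪ KB) 1 τ isCompact_singleton
      (singleton_subset_iff.2 (Or.inl hξ)) (hKA.union hKB)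
      (union_subset_union hKAA hKBB)).1
    have hs2 := ((hPD2 Γ ρ A B hKD {ξ} {ξ} 1 1 isCompact_singleton
      (singleton_subset_iff.2 (Or.inl hξ)) isCompact_singleton
      (singleton_subset_iff.2 (Or.inl hξ))).2.1 K hK hKup).1
    set F1 := {γ : Γ | ∃ x ∈ up, x.1 ∈ ({ξ} : Set ℂ) ∧ x.2 ≤ 1 ∧ (au ρ γ x).1 ∈ KA ∪ KB ∧
      (au ρ γ x).2 ≤ τ} with hF1
    set F2 := {γ : Γ | ∃ x ∈ K, (au ρ γ x).1 ∈ ({ξ} : Set ℂ) ∧ (au ρ γ x).2 ≤ 1} with hF2
    have hF : (F1 ∪ (fun γ : Γ => γ⁻¹) '' F2).Finite := hs1.union (hs2.image _)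
    have hev : ∀ᶠ n : ℕ in Filter.atTop, ∀ γ ∈ F1 ∪ (fun γ : Γ => γ⁻¹) '' F2,
        au ρ γ (ξ, 1 / ((n : ℝ) + 1)) ∉ K ∧ (au ρ γ (ξ, 1 / ((n : ℝ) + 1))).1 ∉ KA ∧
        (au ρ γ (ξ, 1 / ((n : ℝ) + 1))).1 ∉ KB := by
      rw [Filter.eventually_all_finite hF]
      intro γ _
      have hlim := ga_lim (ρ γ) ξ (hKD.mpA γ ξ hξ).1
      have hlim1 : Filter.Tendsto (fun n : ℕ => (ga (ρ γ) (ξ, 1 / ((n : ℝ) + 1))).1) Filter.atTop
          (nhds (mb (ρ γ) ξ)) := (continuous_fst.tendsto _).comp hlim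
      have o1 : Kᶜ ∈ nhds ((mb (ρ γ) ξ, 0) : Pt) := by
        apply hK.isClosed.isOpen_compl.mem_nhds
        intro h
        have h0 : (0 : ℝ) < 0 := hKup h
        exact lt_irrefl _ h0
      have o2 : KAᶜ ∈ nhds (mb (ρ γ) ξ) := hKA.isClosed.isOpen_compl.mem_nhds (hno γ)
      have o3 : KBᶜ ∈ nhds (mb (ρ γ) ξ) := by
        apply hKB.isClosed.isOpen_compl.mem_nhds
        intro h
        exact Set.disjoint_left.1 hKD.dis (hKD.mpA γ ξ hξ).2 (hKBB h)
      filter_upwards [hlim o1, hlim1 o2, hlim1 o3] with n a1 a2 a3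
      exact ⟨a1, a2, a3⟩
    obtain ⟨n, hn⟩ := hev.exists
    have hxup : ((ξ, 1 / ((n : ℝ) + 1)) : Pt) ∈ up := by
      show (0 : ℝ) < 1 / ((n : ℝ) + 1)
      positivity
    have hx1 : 1 / ((n : ℝ) + 1) ≤ 1 := by
      rw [div_le_one (by positivity)]
      linarith [(Nat.cast_nonneg n : (0 : ℝ) ≤ n)]
    obtain ⟨γ, hγ⟩ := hcpt _ hxup
    have hmem : γ ∈ F1 ∪ (fun γ : Γ => γ⁻¹) '' F2 := by
      rcases hγ with h | h | h
      · right
        refine ⟨γ⁻¹, ⟨_, h, ?_⟩, by simp⟩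
        have e : au ρ γ⁻¹ (ga (ρ γ) (ξ, 1 / ((n : ℝ) + 1))) = (ξ, 1 / ((n : ℝ) + 1)) := by
          have h1 := hactu.mul γ⁻¹ γ _ hxup
          rw [inv_mul_cancel, hactu.one _ hxup] at h1
          exact h1.symm
        rw [e]
        exact ⟨rfl, hx1⟩
      · left
        exact ⟨_, hxup, rfl, hx1, Or.inl h.1, h.2.le⟩
      · left
        exact ⟨_, hxup, rfl, hx1, Or.inr h.1, h.2.le⟩
    have h3 := hn γ hmem
    rcases hγ with h | h | h
    · exact h3.1 h
    · exact h3.2.1 h.1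
    · exact h3.2.2 h.1
  · intro ε hε
    obtain ⟨t₀, ht₀, hsm⟩ := small_t hCpos hε
    refine ⟨K ∪ ((KA ∪ KB) ×ˢ Icc t₀ τ), hK.union (hcomp _ _ (hKA.union hKB) ht₀).1,
      union_subset hKup (hcomp _ _ (hKA.union hKB) ht₀).2, ?_⟩
    intro x hx h1 h2
    obtain ⟨γ, hγ⟩ := hcpt x hx
    have hy : au ρ γ x ∈ up := hactu.ms γ x hx
    have hiB := (hinv γ x hx).1
    have hiA := (hinv γ x hx).2
    have hs := hsum x hx
    refine ⟨γ, ?_⟩
    rcases hγ with h | h | h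
    · exact Or.inl h
    · right
      refine ⟨Or.inl h.1, ?_, h.2.le⟩
      by_contra hlt
      push Not at hlt
      have a1 := hbB _ hy h.1
      have a2 := hsm _ hy hlt
      linarith
    · right
      refine ⟨Or.inr h.1, ?_, h.2.le⟩
      by_contra hlt
      push Not at hlt
      have a1 := hbA _ hy h.1
      have a2 := hsm _ hy hlt
      linarith
  · intro t₁ ht₁
    obtain ⟨t₀, ht₀, hsm⟩ := small_t hCpos (by norm_num : (0 : ℝ) < 1 / 2)
    set S : Set Pt := K ∪ (KA ×ˢ Icc t₁ τ) ∪ (KB ×ˢ Icc t₀ τ) with hS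
    have hSc : IsCompact S := (hK.union (hcomp _ _ hKA ht₁).1).union (hcomp _ _ hKB ht₀).1
    have hSu : S ⊆ up :=
      union_subset (union_subset hKup (hcomp _ _ hKA ht₁).2) (hcomp _ _ hKB ht₀).2
    have hvolB : 0 < volume B := hKD.opB.measure_pos volume hKD.neB
    have hpos : ∀ x ∈ up, 0 < hv B x := fun x hx => hm6 B x mB hvolB hx
    have hc : ∃ c > 0, ∀ x ∈ S, c ≤ hv B x := by
      rcases S.eq_empty_or_nonempty with he | hne
      · exact ⟨1, one_pos, fun x hx => by rw [he] at hx; exact absurd hx (Set.notMem_empty x)⟩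
      · obtain ⟨x₀, hx₀, hmin⟩ := hSc.exists_isMinOn hne ((hm3 B mB).2.mono hSu)
        exact ⟨hv B x₀, hpos _ (hSu hx₀), fun x hx => hmin hx⟩
    obtain ⟨c, hc0, hcS⟩ := hc
    refine ⟨min c (1 / 2), by positivity, ?_⟩
    intro x hx hlt
    obtain ⟨γ, hγ⟩ := hcpt x hx
    have hy : au ρ γ x ∈ up := hactu.ms γ x hx
    have hiB := (hinv γ x hx).1
    have hs := hsum _ hy
    rw [← hiB] at hlt
    have hl1 : hv B (au ρ γ x) < c := hlt.trans_le (min_le_left _ _)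
    have hl2 : hv B (au ρ γ x) < 1 / 2 := hlt.trans_le (min_le_right _ _)
    have hnS : au ρ γ x ∉ S := fun h => absurd (hcS _ h) (not_le.2 hl1)
    refine ⟨γ, ?_⟩
    rcases hγ with h | h | h
    · exact absurd (Or.inl (Or.inl h)) hnS
    · refine ⟨h.1, ?_⟩
      by_contra hle
      push Not at hle
      exact hnS (Or.inl (Or.inr ⟨h.1, hle, h.2.le⟩))
    · exfalso
      by_cases hlt0 : (au ρ γ x).2 < t₀
      · have a1 := hbA _ hy h.1
        have a2 := hsm _ hy hlt0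
        linarith
      · push Not at hlt0
        exact hnS (Or.inr ⟨h.1, hlt0, h.2.le⟩)

end Pool.Agent.Helper75.QA
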