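import Pool.Agent.Helper86.QA.St3

/-!
# Project QD part A (MP_d112a4_gt), module FL0: functions with integrable support have zero flux
-/

set_option autoImplicit false

open MeasureTheory Matrix Set Topology
open scoped ENNReal ComplexConjugate

namespace Pool.Agent.Helper75.QA

open Pool.Agent.Helper86.QA
open Pool.Agent.Helper35.PM (hs)

private theorem kk_nn (x y : Pt) : 0 ≤ kk x y := by
  unfold kk; split_ifs <;> norm_num

private theorem kk_le (x y : Pt) : kk x y ≤ 1 := by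
  unfold kk; split_ifs <;> norm_num

private theorem kk_zero_or (x y : Pt) : kk x y = 0 ∨ ch x y ≤ 2 := by
  unfold kk; split_ifs with h
  · right; exact h
  · left; rfl

private theorem ae2 : ∀ᵐ p : Pt × Pt ∂(vol.prod vol), p.1 ∈ up ∧ p.2 ∈ up := by
  filter_upwards [Measure.quasiMeasurePreserving_fst.ae ae_up,
    Measure.quasiMeasurePreserving_snd.ae ae_up] with p h1 h2
  exact ⟨h1, h2⟩

private theorem ae3 : ∀ᵐ p : Pt × (Pt × Pt) ∂(vol.prod (vol.prod vol)),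
    p.1 ∈ up ∧ p.2.1 ∈ up ∧ p.2.2 ∈ up := by
  filter_upwards [Measure.quasiMeasurePreserving_fst.ae ae_up,
    Measure.quasiMeasurePreserving_snd.ae ae2] with p h1 h2
  exact ⟨h1, h2⟩

private theorem KK_bd (hDLF : StDLF) {x0 x1 x2 x3 : Pt} (h0 : x0 ∈ up) (h1 : x1 ∈ up)
    (h2 : x2 ∈ up) (h3 : x3 ∈ up) :
    |KK x0 x1 x2 x3| ≤ 53 * (kk x1 x0 * (kk x1 x2 * kk x1 x3)) := by
  have n0 := kk_nn x1 x0
  have n2 := kk_nn x1 x2
  have n3 := kk_nn x1 x3
  have e : |KK x0 x1 x2 x3| = |Dl x0 x1 x2 x3| * (kk x1 x0 * (kk x1 x2 * kk x1 x3)) := by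
    unfold KK
    rw [abs_mul, abs_mul, abs_mul, abs_of_nonneg n0, abs_of_nonneg n2, abs_of_nonneg n3]
    ring
  rw [e]
  rcases kk_zero_or x1 x0 with h | c0
  · rw [h]; simp
  rcases kk_zero_or x1 x2 with h | c2
  · rw [h]; simp
  rcases kk_zero_or x1 x3 with h | c3
  · rw [h]; simp
  exact mul_le_mul_of_nonneg_right (hDLF.2.2.2.1 x0 h0 x1 h1 x2 h2 x3 h3 c0 c2 c3) (by positivity)

/-- Fubini: if the inner integral vanishes then so does the iterated integral in the other order -/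
private theorem fub_zero {α β : Type} [MeasurableSpace α] [MeasurableSpace β] {μ : Measure α}
    {ν : Measure β} [SFinite μ] [SFinite ν] {G : α × β → ℝ} (hG : Integrable G (μ.prod ν))
    (h0 : ∀ᵐ b ∂ν, ∫ a, G (a, b) ∂μ = 0) : ∫ a, ∫ b, G (a, b) ∂ν ∂μ = 0 := by
  rw [← integral_prod G hG, integral_prod_symm G hG]
  exact integral_eq_zero_of_ae h0

private theorem fub_zero' {α β : Type} [MeasurableSpace α] [MeasurableSpace β] {μ : Measure α}
    {ν : Measure β} [SFinite μ] [SFinite ν] {G : α × β → ℝ} (hG : Integrable G (μ.prod ν))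
    (h0 : ∀ᵐ b ∂ν, ∫ a, G (a, b) ∂μ = 0) : ∫ z, G z ∂(μ.prod ν) = 0 := by
  rw [integral_prod_symm G hG]
  exact integral_eq_zero_of_ae h0

private theorem fub_zero'' {α β : Type} [MeasurableSpace α] [MeasurableSpace β] {μ : Measure α}
    {ν : Measure β} [SFinite μ] [SFinite ν] {G : α × β → ℝ} (hG : Integrable G (μ.prod ν))
    (h0 : ∀ᵐ a ∂μ, ∫ b, G (a, b) ∂ν = 0) : ∫ z, G z ∂(μ.prod ν) = 0 := by
  rw [integral_prod G hG]
  exact integral_eq_zero_of_ae h0

private theorem lin3 {α : Type} [MeasurableSpace α] {μ : Measure α} {f g h : α → ℝ}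
    (hf : Integrable f μ) (hg : Integrable g μ) (hh : Integrable h μ) :
    ∫ x, (f x - g x + h x) ∂μ = ∫ x, f x ∂μ - ∫ x, g x ∂μ + ∫ x, h x ∂μ := by
  have h1 : Integrable (fun x => f x - g x) μ := hf.sub hg
  rw [integral_add h1 hh, integral_sub hf hg]

section

variable (hCHI : StCHI) (hKRN : StKRN) (hDLF : StDLF) (hK3Z : StK3Z) (hARC : StARC)
variable {Pi : Pt → ℂ} (hPm : Measurable Pi) (hPp : ∀ x, Pi x ∈ HP)

include hKRN in
private theorem i2 {x1 : Pt} (h1 : x1 ∈ up) :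
    Integrable (fun p : Pt × Pt => kk x1 p.1 * kk x1 p.2) (vol.prod vol) :=
  (hKRN.2.2 x1 h1).1.mul_prod (hKRN.2.2 x1 h1).1

include hKRN in
private theorem i3 {x1 : Pt} (h1 : x1 ∈ up) :
    Integrable (fun q : Pt × (Pt × Pt) => kk x1 q.1 * (kk x1 q.2.1 * kk x1 q.2.2))
      (vol.prod (vol.prod vol)) :=
  (hKRN.2.2 x1 h1).1.mul_prod (i2 hKRN h1)

include hARC hPp in
private theorem om_bd (x y z : Pt) : |Ar (Pi x) (Pi y) (Pi z)| ≤ 3 * Real.pi :=
  hARC.2.1 _ (hPp x) _ (hPp y) _ (hPp z)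

include hKRN hDLF hK3Z hARC hPm hPp in
/-- part (a) -/
private theorem parta {x1 : Pt} (h1 : x1 ∈ up) :
    ∫ x0, kk x1 x0 * QQ Pi x1 x0 ∂vol = 0 := by
  have hmK := hDLF.2.2.2.2.2.2
  have hmA := hARC.2.2.2.2.2.1
  set G : Pt × (Pt × Pt) → ℝ := fun q => KK q.1 x1 q.2.1 q.2.2 *
    Ar (Pi x1) (Pi q.2.1) (Pi q.2.2) with hG
  have hGm : Measurable G := by
    have f1 : Measurable (fun q : Pt × (Pt × Pt) =>
        ((q.1, x1, q.2.1, q.2.2) : Pt × Pt × Pt × Pt)) := by fun_prop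
    have m1 := hmK.comp f1
    have f2 : Measurable (fun q : Pt × (Pt × Pt) =>
        ((Pi x1, Pi q.2.1, Pi q.2.2) : ℂ × ℂ × ℂ)) := by fun_prop
    have m2 := hmA.comp f2
    exact m1.mul m2
  have hGi : Integrable G (vol.prod (vol.prod vol)) := by
    refine Integrable.mono' ((i3 hKRN h1).const_mul (53 * (3 * Real.pi)))
      hGm.aestronglyMeasurable ?_
    filter_upwards [ae3] with q hq
    rw [Real.norm_eq_abs]
    have b1 := KK_bd hDLF hq.1 h1 hq.2.1 hq.2.2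
    have b2 := om_bd hARC hPp x1 q.2.1 q.2.2
    calc |KK q.1 x1 q.2.1 q.2.2 * Ar (Pi x1) (Pi q.2.1) (Pi q.2.2)|
        = |KK q.1 x1 q.2.1 q.2.2| * |Ar (Pi x1) (Pi q.2.1) (Pi q.2.2)| := abs_mul _ _
      _ ≤ (53 * (kk x1 q.1 * (kk x1 q.2.1 * kk x1 q.2.2))) * (3 * Real.pi) :=
          mul_le_mul b1 b2 (abs_nonneg _) ((abs_nonneg _).trans b1)
      _ = _ := by ring
  have e : ∀ x0, kk x1 x0 * QQ Pi x1 x0 = ∫ p, G (x0, p) ∂(vol.prod vol) := by
    intro x0
    unfold QQ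
    rw [← integral_const_mul]
    congr 1
    funext p
    simp only [hG, KK]
    ring
  simp_rw [e]
  refine fub_zero hGi ?_
  filter_upwards [ae2] with p hp
  simp only [hG]
  rw [integral_mul_const, (hK3Z x1 h1 x1 h1 p.1 hp.1 p.2 hp.2).1, zero_mul]

include hKRN hDLF hK3Z hARC hPm hPp in
/-- part (b) -/
private theorem partb {x0 x1 : Pt} (h0 : x0 ∈ up) (h1 : x1 ∈ up) :
    kk x1 x0 * QQ Pi x1 x0 =
      ∫ p : Pt × Pt, KK x0 x1 p.1 p.2 * Ar (Pi x0) (Pi p.1) (Pi p.2) ∂(vol.prod vol) := by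
  have hmK := hDLF.2.2.2.2.2.2
  have hmA := hARC.2.2.2.2.2.1
  have fK : Measurable (fun p : Pt × Pt => ((x0, x1, p.1, p.2) : Pt × Pt × Pt × Pt)) := by
    fun_prop
  have mK' := hmK.comp fK
  have mK : Measurable (fun p : Pt × Pt => KK x0 x1 p.1 p.2) := mK'
  have gen : ∀ a b c : Pt × Pt → Pt, Measurable a → Measurable b → Measurable c →
      Integrable (fun p : Pt × Pt => KK x0 x1 p.1 p.2 * Ar (Pi (a p)) (Pi (b p)) (Pi (c p)))
        (vol.prod vol) := by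
    intro a b c ha hb hc
    have f2 : Measurable (fun p : Pt × Pt => ((Pi (a p), Pi (b p), Pi (c p)) : ℂ × ℂ × ℂ)) :=
      (hPm.comp ha).prodMk ((hPm.comp hb).prodMk (hPm.comp hc))
    have m2' := hmA.comp f2
    have m2 : Measurable (fun p : Pt × Pt => Ar (Pi (a p)) (Pi (b p)) (Pi (c p))) := m2'
    refine Integrable.mono' ((i2 hKRN h1).const_mul (53 * (3 * Real.pi)))
      (mK.mul m2).aestronglyMeasurable ?_
    filter_upwards [ae2] with p hp
    rw [Real.norm_eq_abs]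
    have b1 := KK_bd hDLF h0 h1 hp.1 hp.2
    have b2 := om_bd hARC hPp (a p) (b p) (c p)
    have b3 : 53 * (kk x1 x0 * (kk x1 p.1 * kk x1 p.2)) ≤ 53 * (kk x1 p.1 * kk x1 p.2) := by
      have := kk_le x1 x0
      have := mul_nonneg (kk_nn x1 p.1) (kk_nn x1 p.2)
      nlinarith
    calc |KK x0 x1 p.1 p.2 * Ar (Pi (a p)) (Pi (b p)) (Pi (c p))|
        = |KK x0 x1 p.1 p.2| * |Ar (Pi (a p)) (Pi (b p)) (Pi (c p))| := abs_mul _ _
      _ ≤ (53 * (kk x1 p.1 * kk x1 p.2)) * (3 * Real.pi) :=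
          mul_le_mul (b1.trans b3) b2 (abs_nonneg _) ((abs_nonneg _).trans (b1.trans b3))
      _ = _ := by ring
  have g1 := gen (fun _ => x0) (fun p => p.1) (fun p => p.2) (by fun_prop) (by fun_prop)
    (by fun_prop)
  have g2 := gen (fun _ => x0) (fun _ => x1) (fun p => p.2) (by fun_prop) (by fun_prop)
    (by fun_prop)
  have g3 := gen (fun _ => x0) (fun _ => x1) (fun p => p.1) (by fun_prop) (by fun_prop)
    (by fun_prop)
  have z2 : ∫ p : Pt × Pt, KK x0 x1 p.1 p.2 * Ar (Pi x0) (Pi x1) (Pi p.2) ∂(vol.prod vol) = 0 := by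
    refine fub_zero' g2 ?_
    filter_upwards [ae_up] with b hb
    rw [integral_mul_const, (hK3Z x0 h0 x1 h1 x0 h0 b hb).2.2.1, zero_mul]
  have z3 : ∫ p : Pt × Pt, KK x0 x1 p.1 p.2 * Ar (Pi x0) (Pi x1) (Pi p.1) ∂(vol.prod vol) = 0 := by
    refine fub_zero'' g3 ?_
    filter_upwards [ae_up] with b hb
    rw [integral_mul_const, (hK3Z x0 h0 x1 h1 b hb x0 h0).2.2.2, zero_mul]
  have e1 : kk x1 x0 * QQ Pi x1 x0 = ∫ p : Pt × Pt, (KK x0 x1 p.1 p.2 *
      Ar (Pi x0) (Pi p.1) (Pi p.2) - KK x0 x1 p.1 p.2 * Ar (Pi x0) (Pi x1) (Pi p.2)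
      + KK x0 x1 p.1 p.2 * Ar (Pi x0) (Pi x1) (Pi p.1)) ∂(vol.prod vol) := by
    unfold QQ
    rw [← integral_const_mul]
    congr 1
    funext p
    rw [hARC.2.2.1 _ (hPp x0) _ (hPp x1) _ (hPp p.1) _ (hPp p.2)]
    simp only [KK]
    ring
  rw [e1, lin3 g1 g2 g3, z2, z3]
  ring

include hCHI hKRN in
/-- integrability of the bound in part (c) -/
private theorem ic {x0 : Pt} (h0 : x0 ∈ up) :
    Integrable (fun q : Pt × (Pt × Pt) => kk q.1 x0 * (kk q.1 q.2.1 * kk q.1 q.2.2))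
      (vol.prod (vol.prod vol)) := by
  have hmk := hCHI.2.2.2.2.2
  have m1 : Measurable (fun q : Pt × (Pt × Pt) => kk q.1 x0) := by
    have f1 : Measurable (fun q : Pt × (Pt × Pt) => ((q.1, x0) : Pt × Pt)) := by fun_prop
    have := hmk.comp f1
    exact this
  have m2 : Measurable (fun q : Pt × (Pt × Pt) => kk q.1 q.2.1) := by
    have f1 : Measurable (fun q : Pt × (Pt × Pt) => ((q.1, q.2.1) : Pt × Pt)) := by fun_prop
    have := hmk.comp f1
    exact this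
  have m3 : Measurable (fun q : Pt × (Pt × Pt) => kk q.1 q.2.2) := by
    have f1 : Measurable (fun q : Pt × (Pt × Pt) => ((q.1, q.2.2) : Pt × Pt)) := by fun_prop
    have := hmk.comp f1
    exact this
  have m : Measurable (fun q : Pt × (Pt × Pt) => kk q.1 x0 * (kk q.1 q.2.1 * kk q.1 q.2.2)) :=
    m1.mul (m2.mul m3)
  rw [integrable_prod_iff m.aestronglyMeasurable]
  constructor
  · filter_upwards [ae_up] with x hx
    exact (i2 hKRN hx).const_mul _
  · have h1 : Integrable (fun x => kk x0 x * (VV * VV)) vol := (hKRN.2.2 x0 h0).1.mul_const _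
    refine h1.congr ?_
    filter_upwards [ae_up] with x hx
    have hs : kk x0 x = kk x x0 := by
      unfold kk; rw [(hCHI.1 x0 h0 x hx).2.1]
    have e : ∀ p : Pt × Pt, ‖kk x x0 * (kk x p.1 * kk x p.2)‖ = kk x x0 * (kk x p.1 * kk x p.2) :=
      fun p => by
        rw [Real.norm_eq_abs, abs_of_nonneg]
        exact mul_nonneg (kk_nn _ _) (mul_nonneg (kk_nn _ _) (kk_nn _ _))
    simp only [e]
    rw [integral_const_mul, hs]
    congr 1
    have h2 := integral_prod_mul (μ := vol) (ν := vol) (kk x) (kk x)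
    rw [(hKRN.2.2 x hx).2] at h2
    exact h2.symm

include hCHI hKRN hDLF hK3Z hARC hPm hPp in
/-- part (c) -/
private theorem partc {x0 : Pt} (h0 : x0 ∈ up) :
    ∫ x1, kk x1 x0 * QQ Pi x1 x0 ∂vol = 0 := by
  have hmK := hDLF.2.2.2.2.2.2
  have hmA := hARC.2.2.2.2.2.1
  set G : Pt × (Pt × Pt) → ℝ := fun q => KK x0 q.1 q.2.1 q.2.2 *
    Ar (Pi x0) (Pi q.2.1) (Pi q.2.2) with hG
  have hGm : Measurable G := by
    have f1 : Measurable (fun q : Pt × (Pt × Pt) =>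
        ((x0, q.1, q.2.1, q.2.2) : Pt × Pt × Pt × Pt)) := by fun_prop
    have m1 := hmK.comp f1
    have f2 : Measurable (fun q : Pt × (Pt × Pt) =>
        ((Pi x0, Pi q.2.1, Pi q.2.2) : ℂ × ℂ × ℂ)) := by fun_prop
    have m2 := hmA.comp f2
    exact m1.mul m2
  have hGi : Integrable G (vol.prod (vol.prod vol)) := by
    refine Integrable.mono' ((ic hCHI hKRN h0).const_mul (53 * (3 * Real.pi)))
      hGm.aestronglyMeasurable ?_
    filter_upwards [ae3] with q hq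
    rw [Real.norm_eq_abs]
    have b1 := KK_bd hDLF h0 hq.1 hq.2.1 hq.2.2
    have b2 := om_bd hARC hPp x0 q.2.1 q.2.2
    calc |KK x0 q.1 q.2.1 q.2.2 * Ar (Pi x0) (Pi q.2.1) (Pi q.2.2)|
        = |KK x0 q.1 q.2.1 q.2.2| * |Ar (Pi x0) (Pi q.2.1) (Pi q.2.2)| := abs_mul _ _
      _ ≤ (53 * (kk q.1 x0 * (kk q.1 q.2.1 * kk q.1 q.2.2))) * (3 * Real.pi) :=
          mul_le_mul b1 b2 (abs_nonneg _) ((abs_nonneg _).trans b1)
      _ = _ := by ring
  have e : ∫ x1, kk x1 x0 * QQ Pi x1 x0 ∂vol = ∫ x1, ∫ p, G (x1, p) ∂(vol.prod vol) ∂vol := by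
    refine integral_congr_ae ?_
    filter_upwards [ae_up] with x1 h1
    exact partb hKRN hDLF hK3Z hARC hPm hPp h0 h1
  rw [e]
  refine fub_zero hGi ?_
  filter_upwards [ae2] with p hp
  simp only [hG]
  rw [integral_mul_const, (hK3Z x0 h0 x0 h0 p.1 hp.1 p.2 hp.2).2.1, zero_mul]

end

theorem hFL0 (hACT : StACT) (hCHI : StCHI) (hVOL : StVOL) (hKRN : StKRN) (hACU : StACU)
    (hDLF : StDLF) (hK3Z : StK3Z) (hARC : StARC) (hSWS : StSWS) (hQQB : StQQB) (hFLA : StFLA) :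
    StFL0 := by
  intro Γ _ ρ A B hKD σ hσ Pi hPi D hD f hfm hfb hfi hfin
  obtain ⟨M, hM⟩ := hfb
  obtain ⟨hcount, hactu, -, -, -, -, -⟩ := hACU Γ ρ A B hKD
  obtain ⟨hQm, hQb, hQi, -⟩ := hQQB Γ ρ σ hσ Pi hPi
  have hPm := hPi.me
  have hPp := hPi.hp
  have hmk := hCHI.2.2.2.2.2
  have hCQ : 0 ≤ CQ := by unfold CQ; positivity
  -- bound for the kernel
  have hkQ : ∀ x1 ∈ up, ∀ x0 ∈ up, |kk x1 x0 * QQ Pi x1 x0| ≤ CQ * kk x1 x0 := by
    intro x1 h1 x0 h0
    rw [abs_mul, abs_of_nonneg (kk_nn _ _), mul_comm]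
    rcases kk_zero_or x1 x0 with h | h
    · rw [h]; simp
    · exact mul_le_mul_of_nonneg_right (hQb x1 h1 x0 h0 h) (kk_nn _ _)
  have mkQ : Measurable (fun p : Pt × Pt => kk p.1 p.2 * QQ Pi p.1 p.2) := hmk.mul hQm
  have ikQ : ∀ x1 ∈ up, Integrable (fun x0 => kk x1 x0 * QQ Pi x1 x0) vol := by
    intro x1 h1
    refine Integrable.mono' ((hKRN.2.2 x1 h1).1.const_mul CQ) ?_ ?_
    · have f1 : Measurable (fun x0 : Pt => ((x1, x0) : Pt × Pt)) := by fun_prop
      have := mkQ.comp f1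
      exact this.aestronglyMeasurable
    · filter_upwards [ae_up] with x0 h0
      exact hkQ x1 h1 x0 h0
  set H : Pt → Pt → ℝ := fun x0 x1 => f x0 * (kk x1 x0 * QQ Pi x1 x0) with hH
  have hHm : Measurable (fun p : Pt × Pt => H p.1 p.2) := by
    have f1 : Measurable (fun p : Pt × Pt => ((p.2, p.1) : Pt × Pt)) := by fun_prop
    have := mkQ.comp f1
    exact (hfm.comp measurable_fst).mul this
  have hHi : ∀ (γ : Γ), ∀ x ∈ up, ∀ y ∈ up, H (au ρ γ x) (au ρ γ y) = H x y := by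
    intro γ x hx y hy
    have hk : kk (au ρ γ y) (au ρ γ x) = kk y x := (hCHI.2.1 (ρ γ) y hy x hx).2
    simp only [hH]
    rw [hfi γ x hx, hk, hQi γ y hy x hx]
  have hHf : ∫⁻ x in D, ∫⁻ y, ENNReal.ofReal |H x y| ∂vol ∂vol ≠ ∞ := by
    have h1 : ∫⁻ x in D, ∫⁻ y, ENNReal.ofReal |H x y| ∂vol ∂vol ≤
        ∫⁻ x in D, ENNReal.ofReal |f x| * (ENNReal.ofReal CQ * ENNReal.ofReal VV) ∂vol := by
      refine setLIntegral_mono' hD.mD ?_
      intro x hx
      have hxu := hD.sub hx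
      rw [← hKRN.2.1 x hxu, ← lintegral_const_mul' _ _ ENNReal.ofReal_ne_top,
        ← lintegral_const_mul' _ _ ENNReal.ofReal_ne_top]
      refine lintegral_mono_ae ?_
      filter_upwards [ae_up] with y hy
      rw [← ENNReal.ofReal_mul hCQ, ← ENNReal.ofReal_mul (abs_nonneg _)]
      apply ENNReal.ofReal_le_ofReal
      simp only [hH]
      rw [abs_mul]
      apply mul_le_mul_of_nonneg_left _ (abs_nonneg _)
      have hs : kk x y = kk y x := by
        unfold kk; rw [(hCHI.1 x hxu y hy).2.1]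
      rw [hs]
      exact hkQ y hy x hxu
    have h2 : ∫⁻ x in D, ENNReal.ofReal |f x| * (ENNReal.ofReal CQ * ENNReal.ofReal VV) ∂vol ≠ ∞ := by
      rw [lintegral_mul_const' _ _ (ENNReal.mul_ne_top ENNReal.ofReal_ne_top ENNReal.ofReal_ne_top)]
      exact ENNReal.mul_ne_top hfin (ENNReal.mul_ne_top ENNReal.ofReal_ne_top ENNReal.ofReal_ne_top)
    exact ne_top_of_le_ne_top h2 h1
  have hsw := (hSWS Γ Pt (au ρ) up D vol H hactu hD hHm hHi hHf).1
  -- left side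
  have hL : ∫ x in D, ∫ y, H x y ∂vol ∂vol = 0 := by
    refine setIntegral_eq_zero_of_forall_eq_zero ?_
    intro x hx
    simp only [hH]
    rw [integral_const_mul, partc hCHI hKRN hDLF hK3Z hARC hPm hPp (hD.sub hx), mul_zero]
  -- right side
  have hR : ∫ y in D, ∫ x, H x y ∂vol ∂vol = ∫ y in D, -(Gf Pi f y) ∂vol := by
    refine setIntegral_congr_fun hD.mD ?_
    intro y hy
    have hyu := hD.sub hy
    have i1 := ikQ y hyu
    have i2 : Integrable (fun x => f x * (kk y x * QQ Pi y x)) vol :=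
      i1.bdd_mul hfm.aestronglyMeasurable (c := M) (Filter.Eventually.of_forall fun x => hM x)
    have e1 : Gf Pi f y = ∫ x, (f y * (kk y x * QQ Pi y x) - f x * (kk y x * QQ Pi y x)) ∂vol := by
      unfold Gf
      congr 1
      funext x
      ring
    show ∫ x, f x * (kk y x * QQ Pi y x) ∂vol = -(Gf Pi f y)
    rw [e1, integral_sub (i1.const_mul _) i2, integral_const_mul,
      parta hKRN hDLF hK3Z hARC hPm hPp hyu]
    ring
  rw [hL, hR, integral_neg] at hsw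
  unfold Fl
  linarith

end Pool.Agent.Helper75.QA
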