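import Pool.Agent.Helper86.QA.St3

/-!
# Project QD part A (MP_d112a4_gt), module FLL: the flux of the indicator functions near `A`
-/

set_option autoImplicit false

open MeasureTheory Matrix Set Topology
open scoped ENNReal ComplexConjugate

namespace Pool.Agent.Helper75.QA

open Pool.Agent.Helper86.QA
open Pool.Agent.Helper35.PM (hs)

/-! ### integrals for `vol` -/

private theorem volint (h : Pt → ℝ) :
    ∫ x, h x ∂vol = ∫ x : Pt, up.indicator (fun x => 1 / x.2 ^ 3 * h x) x := by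
  unfold vol
  rw [integral_withDensity_eq_integral_toReal_smul (by fun_prop)
    (Filter.Eventually.of_forall fun x => ENNReal.ofReal_lt_top), integral_indicator up_meas]
  refine setIntegral_congr_fun up_meas ?_
  intro x hx
  have h0 : 0 < x.2 := hx
  simp only [smul_eq_mul]
  rw [ENNReal.toReal_ofReal (by positivity)]

private theorem scale {k : Pt → ℝ} (hk : Measurable k) {s : ℝ} (hs : 0 < s) :
    ∫ x : Pt, k x = s * ∫ x : Pt, k (x.1, s * x.2) := by
  have hm : Measure.map (fun x : Pt => ((x.1, s * x.2) : Pt)) (volume : Measure Pt) =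
      ENNReal.ofReal s⁻¹ • (volume : Measure Pt) := by
    have h1 := Measure.map_prod_map (volume : Measure ℂ) (volume : Measure ℝ) (f := id)
      (g := fun t => s * t) measurable_id (by fun_prop)
    rw [Measure.map_id, Real.map_volume_mul_left hs.ne', abs_of_pos (inv_pos.2 hs),
      Measure.prod_smul_right] at h1
    rw [Measure.volume_eq_prod]
    exact h1.symm
  have h2 := integral_map (μ := (volume : Measure Pt)) (φ := fun x : Pt => ((x.1, s * x.2) : Pt))
    (by fun_prop) (f := k) hk.aestronglyMeasurable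
  rw [hm, integral_smul_measure, ENNReal.toReal_ofReal (inv_pos.2 hs).le] at h2
  rw [← h2, smul_eq_mul, ← mul_assoc, mul_inv_cancel₀ hs.ne', one_mul]

private theorem map_au {Γ : Type} [Group Γ] {ρ : Γ →* SL} (h : ActOn (au ρ) up vol) (γ : Γ) :
    Measure.map (au ρ γ) vol = vol := by
  ext s hs
  rw [Measure.map_apply (h.me γ) hs, ← lintegral_indicator_one hs,
    ← h.pr γ _ (measurable_one.indicator hs), ← lintegral_indicator_one (h.me γ hs)]
  rfl

/-- the flux density is invariant -/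
private theorem G_inv (hCHI : StCHI) {Γ : Type} [Group Γ] {ρ : Γ →* SL}
    (hact : ActOn (au ρ) up vol) {Pi : Pt → ℂ}
    (hQm : Measurable (fun p : Pt × Pt => QQ Pi p.1 p.2))
    (hQi : ∀ γ : Γ, ∀ x1 ∈ up, ∀ x0 ∈ up, QQ Pi (au ρ γ x1) (au ρ γ x0) = QQ Pi x1 x0)
    {f : Pt → ℝ} (hf : Measurable f) (hfi : ∀ γ : Γ, ∀ x ∈ up, f (au ρ γ x) = f x)
    (γ : Γ) {x : Pt} (hx : x ∈ up) : Gf Pi f (au ρ γ x) = Gf Pi f x := by
  have hmk := hCHI.2.2.2.2.2
  have hm : Measurable (fun y => kk (au ρ γ x) y * (f (au ρ γ x) - f y) * QQ Pi (au ρ γ x) y) := by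
    have f1 : Measurable (fun y : Pt => ((au ρ γ x, y) : Pt × Pt)) := by fun_prop
    have m1 := hmk.comp f1
    have m2 := hQm.comp f1
    exact (m1.mul (measurable_const.sub hf)).mul m2
  unfold Gf
  conv_lhs => rw [← map_au hact γ]
  rw [integral_map (hact.me γ).aemeasurable hm.aestronglyMeasurable]
  refine integral_congr_ae ?_
  filter_upwards [ae_up] with y hy
  have hk : kk (au ρ γ x) (au ρ γ y) = kk x y := (hCHI.2.1 (ρ γ) x hx y hy).2
  rw [hk, hfi γ x hx, hfi γ y hy, hQi γ x hx y hy]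

/-- where the flux density does not vanish -/
private theorem G_supp {B : Set ℂ} {δ : ℝ} {Pi : Pt → ℂ} {x : Pt} {P : Prop}
    (h6 : ∀ y ∈ up, ch x y ≤ 2 → fi B δ x ≠ fi B δ y → P)
    (hG : Gf Pi (fi B δ) x ≠ 0) : P := by
  by_contra hP
  apply hG
  unfold Gf
  refine integral_eq_zero_of_ae ?_
  filter_upwards [ae_up] with y hy
  by_cases hk : ch x y ≤ 2
  · have : fi B δ x = fi B δ y := by
      by_contra hne
      exact hP (h6 y hy hk hne)
    rw [this]; simp
  · have : kk x y = 0 := by unfold kk; rw [if_neg hk]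
    rw [this]; simp

private theorem ind_meas {A : Set ℂ} (hA : MeasurableSet A) {g : ℂ → ℝ} (hg : ContinuousOn g A) :
    Measurable (A.indicator g) := by
  classical
  rw [← Set.piecewise_eq_indicator]
  exact hg.measurable_piecewise continuousOn_const hA

/-- the limit integral over the quotient of `A` -/
private theorem lim_int {Γ : Type} [Group Γ] [Countable Γ] {ρ : Γ →* SL} {A B : Set ℂ} {F : ℂ → ℂ}
    (hA : MeasurableSet A) (hact : ActOn (ab ρ) A (mA A B)) [SigmaFinite (mA A B)]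
    (haw : Measurable (aw B)) (hfin : ∀ ξ ∈ A, aw B ξ ≠ ∞ ∧ 0 < (aw B ξ).toReal)
    (hUNF : StUNF) {DA : Set ℂ} (hDA : FDOn (ab ρ) A DA) (hcont : ContinuousOn (rX F) A)
    (hr0 : ∀ ξ, 0 ≤ rX F ξ) (hp : ∀ γ : Γ, ∀ ξ ∈ A, ρ γ 1 0 * ξ + ρ γ 1 1 ≠ 0 ∧ mb (ρ γ) ξ ∈ A)
    (hinv : ∀ γ : Γ, ∀ ξ ∈ A, rX F (mb (ρ γ) ξ) = rX F ξ * ‖ρ γ 1 0 * ξ + ρ γ 1 1‖ ^ 4)
    (hawi : ∀ γ : Γ, ∀ ξ ∈ A, aw B (mb (ρ γ) ξ) =
      aw B ξ * ENNReal.ofReal (‖ρ γ 1 0 * ξ + ρ γ 1 1‖ ^ 4))
    (hint : IntegrableOn (rX F) DA) {ψA : ℂ → ℝ} (hψm : Measurable ψA)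
    (hψ0 : ∀ z, 0 ≤ ψA z ∧ ψA z ≤ 1)
    (hsum : ∀ z ∈ A, ∑' γ : Γ, ENNReal.ofReal (ψA (ab ρ γ z)) = 1) :
    ∫ z, ψA z * A.indicator (rX F) z = ∫ ξ in DA, rX F ξ := by
  have hgm := ind_meas hA hcont
  set g := A.indicator (rX F) with hg
  have hg0 : ∀ z, 0 ≤ g z := fun z => Set.indicator_nonneg (fun x _ => hr0 x) z
  set f : ℂ → ℝ := fun ξ => g ξ / (aw B ξ).toReal with hf
  have hfm : Measurable f := hgm.div haw.ennreal_toReal
  have hgA : ∀ z ∈ A, g z = rX F z := fun z hz => Set.indicator_of_mem hz _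
  have hlt : ∀ᵐ x ∂((volume : Measure ℂ).restrict A), aw B x < ∞ := by
    rw [ae_restrict_iff' hA]
    exact Filter.Eventually.of_forall fun x hx => (hfin x hx).1.lt_top
  have hlt' : ∀ᵐ x ∂(((volume : Measure ℂ).restrict A).restrict DA), aw B x < ∞ :=
    ae_restrict_of_ae hlt
  have hmul : ∀ x ∈ A, (aw B x).toReal * f x = rX F x := by
    intro x hx
    have := (hfin x hx).2.ne'
    simp only [hf]
    rw [hgA x hx]
    field_simp
  have hinvf : ∀ (γ : Γ), ∀ x ∈ A, f (ab ρ γ x) = f x := by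
    intro γ x hx
    have h1 := hp γ x hx
    have h2 : (0 : ℝ) < ‖ρ γ 1 0 * x + ρ γ 1 1‖ ^ 4 := pow_pos (norm_pos_iff.2 h1.1) 4
    show g (mb (ρ γ) x) / (aw B (mb (ρ γ) x)).toReal = g x / (aw B x).toReal
    rw [hgA _ h1.2, hgA _ hx, hinv γ x hx, hawi γ x hx, ENNReal.toReal_mul,
      ENNReal.toReal_ofReal h2.le]
    exact mul_div_mul_right _ _ h2.ne'
  have hmAD : ∀ h : ℂ → ℝ≥0∞, ∫⁻ x in DA, h x ∂(mA A B) = ∫⁻ x in DA, aw B x * h x := by
    intro h
    unfold mA
    rw [restrict_withDensity hDA.mD, lintegral_withDensity_eq_lintegral_mul_non_measurable₀]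
    · rw [Measure.restrict_restrict hDA.mD, Set.inter_eq_left.2 hDA.sub]
      rfl
    · exact haw.aemeasurable
    · exact hlt'
  have hff : ∫⁻ x in DA, ENNReal.ofReal |f x| ∂(mA A B) ≠ ∞ := by
    rw [hmAD]
    have h1 : ∫⁻ x in DA, aw B x * ENNReal.ofReal |f x| = ∫⁻ x in DA, ENNReal.ofReal (rX F x) := by
      refine setLIntegral_congr_fun hDA.mD ?_
      intro x hx
      have hxA := hDA.sub hx
      have h2 : |f x| = f x := abs_of_nonneg (div_nonneg (hg0 x) ENNReal.toReal_nonneg)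
      show aw B x * ENNReal.ofReal |f x| = ENNReal.ofReal (rX F x)
      rw [h2, ← hmul x hxA, ENNReal.ofReal_mul ENNReal.toReal_nonneg,
        ENNReal.ofReal_toReal (hfin x hxA).1]
    rw [h1]
    exact hint.lintegral_lt_top.ne
  have hu := hUNF Γ ℂ (ab ρ) A DA (mA A B) f ψA hact hDA hfm hψm (fun x => (hψ0 x).1) hinvf
    (fun x hx _ => hsum x hx) hff
  have hL : ∫ x in DA, f x ∂(mA A B) = ∫ ξ in DA, rX F ξ := by
    unfold mA
    rw [setIntegral_withDensity_eq_setIntegral_toReal_smul haw hlt' _ hDA.mD,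
      Measure.restrict_restrict hDA.mD, Set.inter_eq_left.2 hDA.sub]
    refine setIntegral_congr_fun hDA.mD ?_
    intro x hx
    exact hmul x (hDA.sub hx)
  have hR : ∫ x, f x * ψA x ∂(mA A B) = ∫ z, ψA z * g z := by
    unfold mA
    rw [integral_withDensity_eq_integral_toReal_smul haw hlt]
    have e1 : ∫ z, ψA z * g z = ∫ z in A, ψA z * g z := by
      rw [← setIntegral_univ]
      refine setIntegral_eq_of_subset_of_forall_sdiff_eq_zero MeasurableSet.univ
        (subset_univ _) ?_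
      intro z hz
      rw [hg, Set.indicator_of_notMem hz.2, mul_zero]
    rw [e1]
    refine setIntegral_congr_fun hA ?_
    intro z hz
    simp only [smul_eq_mul]
    rw [← mul_assoc, hmul z hz, hgA z hz, mul_comm]
  rw [← hL, ← hR, hu]

/-- the rescaled density -/
private noncomputable def WW (G ψ : Pt → ℝ) (δ : ℝ) (q : Pt) : ℝ :=
  up.indicator (fun q => 1 / (δ * q.2 ^ 3) *
    (G (q.1, Real.sqrt δ * q.2) * ψ (q.1, Real.sqrt δ * q.2))) q

private theorem int_WW {G ψ : Pt → ℝ} (hG : Measurable G) (hψ : Measurable ψ) {δ : ℝ}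
    (hδ : 0 < δ) : ∫ x, G x * ψ x ∂vol = ∫ q, WW G ψ δ q := by
  have hs : 0 < Real.sqrt δ := Real.sqrt_pos.2 hδ
  have hs2 : Real.sqrt δ ^ 2 = δ := Real.sq_sqrt hδ.le
  have hm : Measurable (up.indicator (fun x : Pt => 1 / x.2 ^ 3 * (G x * ψ x))) :=
    Measurable.indicator (by fun_prop) up_meas
  rw [volint, scale hm hs, ← integral_const_mul]
  congr 1
  funext q
  unfold WW
  by_cases hq : q ∈ up
  · have hq0 : 0 < q.2 := hq
    have hq' : ((q.1, Real.sqrt δ * q.2) : Pt) ∈ up := mul_pos hs hq0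
    rw [Set.indicator_of_mem hq, Set.indicator_of_mem hq']
    have e : Real.sqrt δ * (1 / (Real.sqrt δ * q.2) ^ 3) = 1 / (δ * q.2 ^ 3) := by
      rw [mul_pow]
      have e3 : Real.sqrt δ ^ 3 = Real.sqrt δ * δ := by
        rw [pow_succ, hs2, mul_comm]
      rw [e3]
      field_simp
    rw [← mul_assoc, e]
  · have hq' : ((q.1, Real.sqrt δ * q.2) : Pt) ∉ up := by
      intro h
      apply hq
      have h1 : 0 < Real.sqrt δ * q.2 := h
      exact (pos_iff_pos_of_mul_pos h1).1 hs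
    rw [Set.indicator_of_notMem hq, Set.indicator_of_notMem hq', mul_zero]

private theorem WW_meas {G ψ : Pt → ℝ} (hG : Measurable G) (hψ : Measurable ψ) (δ : ℝ) :
    Measurable (WW G ψ δ) := by
  unfold WW
  exact Measurable.indicator (by fun_prop) up_meas

/-- the path to the boundary point -/
private theorem path_lim (z : ℂ) {r : ℝ} (hr : 0 < r) :
    Filter.Tendsto (fun δ : ℝ => ((z, Real.sqrt δ * r) : Pt)) (𝓝[>] 0) (𝓝[up] (z, 0)) := by
  refine tendsto_nhdsWithin_iff.2 ⟨?_, ?_⟩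
  · have h1 : Filter.Tendsto (fun δ : ℝ => Real.sqrt δ * r) (𝓝[>] 0) (nhds 0) := by
      have h2 : Filter.Tendsto (fun δ : ℝ => Real.sqrt δ * r) (nhds 0)
          (nhds (Real.sqrt 0 * r)) :=
        (Real.continuous_sqrt.mul continuous_const).tendsto 0
      rw [Real.sqrt_zero, zero_mul] at h2
      exact h2.mono_left nhdsWithin_le_nhds
    exact tendsto_const_nhds.prodMk_nhds h1
  · filter_upwards [self_mem_nhdsWithin] with δ hδ
    have : 0 < Real.sqrt δ := Real.sqrt_pos.2 hδ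
    show 0 < Real.sqrt δ * r
    positivity

private theorem path_lim' (z : ℂ) :
    Filter.Tendsto (fun t : ℝ => ((z, t) : Pt)) (𝓝[>] 0) (𝓝[up] (z, 0)) := by
  refine tendsto_nhdsWithin_iff.2 ⟨?_, ?_⟩
  · have h1 : Filter.Tendsto (fun t : ℝ => t) (𝓝[>] (0 : ℝ)) (nhds 0) :=
      Filter.tendsto_id.mono_left nhdsWithin_le_nhds
    exact tendsto_const_nhds.prodMk_nhds h1
  · filter_upwards [self_mem_nhdsWithin] with t ht
    exact ht

/-- the exceptional set -/
private theorem exc_null {a : ℂ → ℝ} (ha : Measurable a) :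
    ∀ᵐ q : Pt, 0 < q.2 → q.2 ^ 2 * a q.1 ≠ Real.pi := by
  have hms : MeasurableSet {q : Pt | 0 < q.2 → q.2 ^ 2 * a q.1 ≠ Real.pi} := by
    have e : {q : Pt | 0 < q.2 → q.2 ^ 2 * a q.1 ≠ Real.pi} =
        ({q : Pt | 0 < q.2} ∩ {q : Pt | q.2 ^ 2 * a q.1 = Real.pi})ᶜ := by
      ext q
      simp only [mem_ofPred_eq, mem_compl_iff, mem_inter_iff, not_and]
    rw [e]
    have m : Measurable (fun q : Pt => q.2 ^ 2 * a q.1) := by fun_prop
    exact (up_meas.inter (m (measurableSet_singleton _))).compl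
  rw [Measure.volume_eq_prod, Measure.ae_prod_iff_ae_ae hms]
  refine Filter.Eventually.of_forall fun z => ?_
  rw [ae_iff]
  have hsub : {t : ℝ | ¬(0 < t → t ^ 2 * a z ≠ Real.pi)} ⊆ {Real.sqrt (Real.pi / a z)} := by
    intro t ht
    simp only [mem_ofPred_eq, not_forall, not_not] at ht
    obtain ⟨h1, h2⟩ := ht
    have ha0 : a z ≠ 0 := by
      intro h0
      rw [h0, mul_zero] at h2
      exact Real.pi_pos.ne h2
    have h3 : Real.pi / a z = t ^ 2 := by
      rw [← h2]; field_simp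
    rw [mem_singleton_iff, h3, Real.sqrt_sq h1.le]
  exact measure_mono_null hsub (measure_singleton _)

private theorem sq_mono {a b : ℝ} (ha : 0 ≤ a) (hb : 0 ≤ b) (h : a ^ 2 ≤ b ^ 2) : a ≤ b :=
  (pow_le_pow_iff_left₀ ha hb two_ne_zero).1 h

theorem hFLL (hACT : StACT) (hCHI : StCHI) (hVOL : StVOL) (hHME : StHME) (hAWB : StAWB)
    (hACU : StACU) (hARE : StARE) (hASV : StASV) (hPSI : StPSI) (hUNF : StUNF) (hQQB : StQQB)
    (hFLA : StFLA) (hFLB : StFLB) (hINT : StINT) (hFLG : StFLG) : StFLL := by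
  intro Γ _ ρ A B hKD F σ hCF Pi hPi hPA D DA hD hDA
  obtain ⟨hcount, hactu, hacta, hsig, -, -, -⟩ := hACU Γ ρ A B hKD
  haveI := hcount
  haveI := hsig
  obtain ⟨haw, hcaw, hfaw, hawi⟩ := hAWB Γ ρ A B hKD
  obtain ⟨hrinv, hrc, -, -, -, hrint⟩ := hARE Γ ρ A B hKD F σ hCF DA hDA
  obtain ⟨hasv1, hasv2⟩ := hASV Γ ρ A B hKD
  obtain ⟨KS, ψ, ψA, δ₀, hKS, hKSA, hδ₀, hψm, hψAm, hψ01, hψA01, hψs, hψAs, hψsum, hψAsum,
    hψlim⟩ := hPSI Γ ρ A B hKD 1 one_pos
  obtain ⟨c, hc, C, hC, hcC⟩ := hasv1 KS 1 hKS hKSA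
  obtain ⟨hQm, hQb, hQi, -⟩ := hQQB Γ ρ σ hCF.rea Pi hPi
  obtain ⟨hG1, hG2⟩ := hFLG Γ ρ A B hKD F σ hCF Pi hPi hPA
  have hA := hKD.opA.measurableSet
  have hl : 0 < ll := by unfold ll; positivity
  have hsC : 0 < Real.sqrt C := Real.sqrt_pos.2 hC
  have hsc : 0 < Real.sqrt c := Real.sqrt_pos.2 hc
  set r1 : ℝ := 1 / (ll * Real.sqrt C) with hr1
  set r2 : ℝ := ll / Real.sqrt c with hr2
  have hr1p : 0 < r1 := by positivity
  have hr2p : 0 < r2 := by positivity
  have hr1s : r1 ^ 2 = 1 / (ll ^ 2 * C) := by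
    rw [hr1, div_pow, mul_pow, Real.sq_sqrt hC.le, one_pow]
  have hr2s : r2 ^ 2 = ll ^ 2 / c := by
    rw [hr2, div_pow, Real.sq_sqrt hc.le]
  obtain ⟨C', hC', δ₁, hδ₁, hGb⟩ := hG1 KS r2 hKS hKSA hr2p
  set S : Set Pt := KS ×ˢ Icc r1 r2 with hS
  have hSm : MeasurableSet S := hKS.measurableSet.prod measurableSet_Icc
  have hSfin : volume S ≠ ∞ := (hKS.prod isCompact_Icc).measure_lt_top.ne
  have hSup : ∀ q ∈ S, q.1 ∈ KS ∧ 0 < q.2 := fun q hq => ⟨hq.1, hr1p.trans_le hq.2.1⟩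
  -- small levels
  set δm : ℝ := min (min (δ₀ / ll ^ 2) δ₁) (1 / 2) with hδm
  have hδmp : 0 < δm := by
    rw [hδm]
    refine lt_min (lt_min (by positivity) hδ₁) (by norm_num)
  have hev : ∀ᶠ δ : ℝ in 𝓝[>] 0, 0 < δ ∧ δ < δm := by
    filter_upwards [Ioo_mem_nhdsGT hδmp] with δ hδ
    exact hδ
  have key : ∀ δ : ℝ, 0 < δ → δ < δm →
      Fl D Pi (fi B δ) = ∫ q in S, WW (Gf Pi (fi B δ)) ψ δ q ∧
      (∀ q ∈ S, |WW (Gf Pi (fi B δ)) ψ δ q| ≤ C' / r1) ∧ Measurable (Gf Pi (fi B δ)) := by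
    intro δ hδ hδl
    have d1 : δ < δ₀ / ll ^ 2 := hδl.trans_le ((min_le_left _ _).trans (min_le_left _ _))
    have d2 : δ < δ₁ := hδl.trans_le ((min_le_left _ _).trans (min_le_right _ _))
    have d3 : δ < 1 := by
      have := hδl.trans_le (min_le_right _ _)
      linarith
    have d4 : ll ^ 2 * δ < δ₀ := by
      rw [lt_div_iff₀ (by positivity)] at d1
      linarith
    obtain ⟨hfm, hfb, hfi, hTV, -, h6⟩ := hFLB Γ ρ A B hKD D hD δ ⟨hδ, d3⟩
    obtain ⟨hGm, -, hGT, -⟩ := hFLA Γ ρ σ hCF.rea Pi hPi D hD.mD (fi B δ) hfm ⟨1, hfb⟩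
    have hGi := (hGT hTV).1
    have hsupp : ∀ x ∈ up, Gf Pi (fi B δ) x ≠ 0 → δ / ll ^ 2 ≤ hv B x ∧ hv B x < ll ^ 2 * δ := by
      intro x hx hne
      refine G_supp ?_ hne
      intro y hy hxy hff
      have := h6 x hx y hy hxy hff
      exact ⟨this.1, this.2.1⟩
    have hu := hUNF Γ Pt (au ρ) up D vol (Gf Pi (fi B δ)) ψ hactu hD hGm hψm
      (fun x => (hψ01 x).1)
      (fun γ x hx => G_inv hCHI hactu hQm hQi hfm hfi γ hx)
      (fun x hx hne => hψsum x hx ((hsupp x hx hne).2.trans d4))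
      hGi.abs.lintegral_lt_top.ne
    have hsq : ∀ r : ℝ, (Real.sqrt δ * r) ^ 2 = δ * r ^ 2 := fun r => by
      rw [mul_pow, Real.sq_sqrt hδ.le]
    have hs : 0 < Real.sqrt δ := Real.sqrt_pos.2 hδ
    have hz : ∀ q ∉ S, WW (Gf Pi (fi B δ)) ψ δ q = 0 := by
      intro q hq
      by_contra hne
      apply hq
      have hqu : q ∈ up := by
        by_contra h
        apply hne
        unfold WW
        rw [Set.indicator_of_notMem h]
      have hq2 : 0 < q.2 := hqu
      unfold WW at hne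
      rw [Set.indicator_of_mem hqu] at hne
      have hne2 := right_ne_zero_of_mul hne
      have hGne := left_ne_zero_of_mul hne2
      have hψne := right_ne_zero_of_mul hne2
      have hx : ((q.1, Real.sqrt δ * q.2) : Pt) ∈ up := mul_pos hs hq2
      obtain ⟨a1, a2⟩ := hsupp _ hx hGne
      obtain ⟨b1, b2, b3⟩ := hψs _ hψne
      obtain ⟨e1, e2⟩ := hcC q.1 b1 (Real.sqrt δ * q.2) b2 b3.le
      rw [hsq] at e1 e2
      refine ⟨b1, ?_, ?_⟩
      · apply sq_mono hr1p.le hq2.le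
        rw [hr1s, div_le_iff₀ (by positivity)]
        have h1 : δ / ll ^ 2 ≤ C * (δ * q.2 ^ 2) := a1.trans e2
        rw [div_le_iff₀ (by positivity)] at h1
        have h2 : δ * 1 ≤ δ * (q.2 ^ 2 * (ll ^ 2 * C)) := by linarith
        exact le_of_mul_le_mul_left h2 hδ
      · apply sq_mono hq2.le hr2p.le
        rw [hr2s, le_div_iff₀ hc]
        have h1 : c * (δ * q.2 ^ 2) ≤ ll ^ 2 * δ := e1.trans a2.le
        have h2 : δ * (q.2 ^ 2 * c) ≤ δ * ll ^ 2 := by linarith
        exact le_of_mul_le_mul_left h2 hδ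
    refine ⟨?_, ?_, hGm⟩
    · unfold Fl
      rw [hu, int_WW hGm hψm hδ, ← setIntegral_univ]
      exact setIntegral_eq_of_subset_of_forall_sdiff_eq_zero MeasurableSet.univ (subset_univ _)
        (fun q hq => hz q hq.2)
    · intro q hq
      obtain ⟨hq1, hq2⟩ := hSup q hq
      unfold WW
      rw [Set.indicator_of_mem (show q ∈ up from hq2)]
      have h1 := hGb q.1 hq1 q.2 hq2 hq.2.2 δ hδ d2
      have h2 := hψ01 (q.1, Real.sqrt δ * q.2)
      have h3 : |Gf Pi (fi B δ) (q.1, Real.sqrt δ * q.2) * ψ (q.1, Real.sqrt δ * q.2)| ≤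
          C' * (δ * q.2 ^ 2) := by
        rw [abs_mul, abs_of_nonneg h2.1]
        calc _ ≤ (C' * (δ * q.2 ^ 2)) * 1 :=
              mul_le_mul h1 h2.2 h2.1 ((abs_nonneg _).trans h1)
          _ = _ := mul_one _
      rw [abs_mul, abs_of_pos (by positivity : (0 : ℝ) < 1 / (δ * q.2 ^ 3))]
      calc _ ≤ 1 / (δ * q.2 ^ 3) * (C' * (δ * q.2 ^ 2)) :=
            mul_le_mul_of_nonneg_left h3 (by positivity)
        _ = C' / q.2 := by field_simp
        _ ≤ C' / r1 := div_le_div_of_nonneg_left hC'.le hr1p hq.2.1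
  -- the limit
  have hgm := ind_meas hA hrc
  have hgA : ∀ z ∈ A, A.indicator (rX F) z = rX F z := fun z hz => Set.indicator_of_mem hz _
  set g := A.indicator (rX F) with hg
  obtain ⟨-, ⟨MI, hMI⟩, hIm, -, -⟩ := hINT 1 one_pos
  set Wl : Pt → ℝ := fun q => 1 / q.2 ^ 3 *
    (q.2 ^ 2 * (g q.1 / 2 * II (Real.sqrt (Real.pi / (aw B q.1).toReal)) q.2)) * ψA q.1 with hWl
  have hWlm : Measurable Wl := by
    have f1 : Measurable (fun q : Pt =>
        ((Real.sqrt (Real.pi / (aw B q.1).toReal), q.2) : ℝ × ℝ)) := by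
      have := haw.ennreal_toReal
      fun_prop
    have m1 := hIm.comp f1
    have m2 : Measurable (fun q : Pt => II (Real.sqrt (Real.pi / (aw B q.1).toReal)) q.2) := m1
    exact ((measurable_const.div (by fun_prop)).mul ((measurable_snd.pow_const 2).mul
      (((hgm.comp measurable_fst).div_const 2).mul m2))).mul (hψAm.comp measurable_fst)
  have hlim : Filter.Tendsto (fun δ : ℝ => ∫ q in S, WW (Gf Pi (fi B δ)) ψ δ q) (𝓝[>] 0)
      (nhds (∫ q in S, Wl q)) := by
    refine tendsto_integral_filter_of_dominated_convergence (fun _ => C' / r1) ?_ ?_ ?_ ?_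
    · filter_upwards [hev] with δ hδ
      exact (WW_meas (key δ hδ.1 hδ.2).2.2 hψm δ).aestronglyMeasurable
    · filter_upwards [hev] with δ hδ
      rw [ae_restrict_iff' hSm]
      exact Filter.Eventually.of_forall fun q hq => (key δ hδ.1 hδ.2).2.1 q hq
    · exact integrableOn_const hSfin
    · rw [ae_restrict_iff' hSm]
      filter_upwards [exc_null haw.ennreal_toReal] with q hq hqS
      obtain ⟨hq1, hq2⟩ := hSup q hqS
      have hqA := hKSA hq1
      have t1 := hG2 q.1 hqA q.2 hq2 (hq hq2)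
      have t2 := (hψlim q.1 hqA).comp (path_lim q.1 hq2)
      have t3 := ((t1.const_mul (1 / q.2 ^ 3)).mul t2)
      have e : Wl q = 1 / q.2 ^ 3 * (q.2 ^ 2 * (rX F q.1 / 2 *
          II (Real.sqrt (Real.pi / (aw B q.1).toReal)) q.2)) * ψA q.1 := by
        simp only [hWl]
        rw [hgA _ hqA]
      rw [e]
      refine t3.congr' ?_
      filter_upwards [self_mem_nhdsWithin] with δ hδ
      have hδ0 : (0 : ℝ) < δ := hδ
      unfold WW
      rw [Set.indicator_of_mem (show q ∈ up from hq2)]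
      simp only [Function.comp]
      field_simp
  -- value of the limit
  have hWlb : ∃ M : ℝ, ∀ q ∈ S, ‖Wl q‖ ≤ M := by
    obtain ⟨Mg, hMg⟩ := hKS.exists_bound_of_continuousOn (hrc.mono hKSA)
    refine ⟨1 / r1 * (Mg / 2 * MI), ?_⟩
    intro q hq
    obtain ⟨hq1, hq2⟩ := hSup q hq
    have hqA := hKSA hq1
    have h1 := hMg q.1 hq1
    rw [Real.norm_eq_abs, ← hgA _ hqA] at h1
    have h2 := hMI (Real.sqrt (Real.pi / (aw B q.1).toReal)) q.2
    have h3 := hψA01 q.1
    have e : Wl q = 1 / q.2 * (g q.1 / 2 * II (Real.sqrt (Real.pi / (aw B q.1).toReal)) q.2)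
        * ψA q.1 := by
      simp only [hWl]
      field_simp
    rw [e, Real.norm_eq_abs, abs_mul, abs_mul, abs_mul, abs_of_nonneg h3.1, abs_div, abs_div,
      abs_one, abs_of_pos hq2, abs_of_pos (by norm_num : (0 : ℝ) < 2)]
    have hMg0 : 0 ≤ Mg := (abs_nonneg _).trans h1
    have hMI0 : 0 ≤ MI := (abs_nonneg _).trans h2
    have h4 : 1 / q.2 ≤ 1 / r1 := one_div_le_one_div_of_le hr1p hq.2.1
    calc _ ≤ (1 / r1 * (Mg / 2 * MI)) * 1 := by
          refine mul_le_mul ?_ h3.2 h3.1 (by positivity)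
          refine mul_le_mul h4 ?_ (by positivity) (by positivity)
          exact mul_le_mul (by linarith) h2 (abs_nonneg _) (by positivity)
      _ = _ := mul_one _
  obtain ⟨MW, hMW⟩ := hWlb
  have hWli : IntegrableOn Wl S volume := by
    refine Measure.integrableOn_of_bounded hSfin hWlm.aestronglyMeasurable (M := MW) ?_
    rw [ae_restrict_iff' hSm]
    exact Filter.Eventually.of_forall hMW
  have hval : ∫ q in S, Wl q = cK / 2 * ∫ ξ in DA, rX F ξ := by
    have hinner : ∀ z ∈ KS, ∫ r in Icc r1 r2, Wl (z, r) = cK / 2 * (ψA z * g z) := by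
      intro z hz
      have hzA := hKSA hz
      have ha0 := (hfaw z hzA).2
      set a := (aw B z).toReal with ha
      -- bounds for `a`
      have hta : Filter.Tendsto (fun t : ℝ => hv B (z, t) / t ^ 2) (𝓝[>] 0)
          (nhds (a / Real.pi)) := (hasv2 z hzA).comp (path_lim' z)
      have hIoc : Ioc (0 : ℝ) 1 ∈ 𝓝[>] (0 : ℝ) := Ioc_mem_nhdsGT one_pos
      have hcl : c ≤ a / Real.pi := by
        refine ge_of_tendsto hta ?_
        filter_upwards [hIoc] with t ht
        rw [le_div_iff₀ (pow_pos ht.1 2)]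
        exact (hcC z hz t ht.1 ht.2).1
      have hcu : a / Real.pi ≤ C := by
        refine le_of_tendsto hta ?_
        filter_upwards [hIoc] with t ht
        rw [div_le_iff₀ (pow_pos ht.1 2)]
        exact (hcC z hz t ht.1 ht.2).2
      have hq0 : 0 < Real.pi / a := by positivity
      set cz := Real.sqrt (Real.pi / a) with hcz
      have hcz0 : 0 < cz := Real.sqrt_pos.2 hq0
      have hczs : cz ^ 2 = Real.pi / a := Real.sq_sqrt hq0.le
      have hb1 : r1 * ll ≤ cz := by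
        apply sq_mono (by positivity) hcz0.le
        rw [mul_pow, hr1s, hczs]
        rw [div_mul_eq_mul_div, div_le_div_iff₀ (by positivity) ha0]
        rw [div_le_iff₀ Real.pi_pos] at hcu
        nlinarith [pow_pos hl 2]
      have hb2 : cz * ll ≤ r2 := by
        apply sq_mono (by positivity) hr2p.le
        rw [mul_pow, hr2s, hczs]
        rw [div_mul_eq_mul_div, div_le_div_iff₀ ha0 hc]
        rw [le_div_iff₀ Real.pi_pos] at hcl
        nlinarith [pow_pos hl 2]
      obtain ⟨hI0, -, -, -, hIv⟩ := hINT cz hcz0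
      have e1 : ∫ r in Icc r1 r2, II cz r / r = cK := by
        rw [← hIv]
        symm
        refine setIntegral_eq_of_subset_of_forall_sdiff_eq_zero measurableSet_Ioi
          (fun r hr => hr1p.trans_le hr.1) ?_
        intro r hr
        have hr0 : 0 < r := hr.1
        have hn : ¬(r1 ≤ r ∧ r ≤ r2) := hr.2
        rw [hI0 r hr0, zero_div]
        by_cases h : r1 ≤ r
        · right
          have : r2 < r := by
            by_contra h'
            exact hn ⟨h, not_lt.1 h'⟩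
          linarith
        · left
          rw [lt_div_iff₀ hl]
          have : r < r1 := not_le.1 h
          nlinarith
      have e2 : ∫ r in Icc r1 r2, Wl (z, r) =
          ∫ r in Icc r1 r2, (ψA z * (g z / 2)) * (II cz r / r) := by
        refine setIntegral_congr_fun measurableSet_Icc ?_
        intro r hr
        have hr0 : 0 < r := hr1p.trans_le hr.1
        simp only [hWl]
        rw [← ha, ← hcz]
        field_simp
      rw [e2, integral_const_mul, e1]
      ring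
    rw [Measure.volume_eq_prod] at hWli ⊢
    rw [hS] at hWli ⊢
    rw [setIntegral_prod _ hWli, setIntegral_congr_fun hKS.measurableSet hinner,
      integral_const_mul]
    congr 1
    have e3 : ∫ z, ψA z * g z = ∫ z in KS, ψA z * g z := by
      rw [← setIntegral_univ]
      refine setIntegral_eq_of_subset_of_forall_sdiff_eq_zero MeasurableSet.univ
        (subset_univ _) ?_
      intro z hz
      have : ψA z = 0 := by
        by_contra h
        exact hz.2 (hψAs z h)
      rw [this, zero_mul]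
    rw [← e3]
    exact lim_int hA hacta haw hfaw hUNF hDA hrc
      (fun ξ => by unfold rX; positivity) hKD.mpA hrinv hawi hrint hψAm hψA01 hψAsum
  rw [← hval]
  refine hlim.congr' ?_
  filter_upwards [hev] with δ hδ
  exact ((key δ hδ.1 hδ.2).1).symm

end Pool.Agent.Helper75.QA
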